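import Pool.Agent.Q53.CubicCurve.Homog

/-!
Every rational point of a smooth cubic surface over a finite field (more generally, over a perfect
field) lies on a rational curve that is defined over the field.
-/

set_option autoImplicit false

namespace Pool.Agent.Results.MP_4f7796_ag.RationalCurve

/-- Let `k` be a perfect field, for example a finite field, with algebraic closure `K`. Let `F` be a
cubic form in four variables over `k` whose zero set in the projective space is a smooth surface
`X`, and let `x` be a rational point of `X`. There are binary forms `p 0, p 1, p 2, p 3` over `k`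
of the same positive degree `n`, without a common zero over `K`, that satisfy `F(p) = 0`; so
they define a non-constant morphism from the projective line to `X` over `k`; and the
point `x` is in the image of this morphism. -/
theorem result {k : Type*} [Field k] [PerfectField k] (F : MvPolynomial (Fin 4) k)
    (hF : F.IsHomogeneous 3)
    (hsmooth : ∀ y : Fin 4 → AlgebraicClosure k, y ≠ 0 → MvPolynomial.aeval y F = 0 →
      ∃ i, MvPolynomial.aeval y (MvPolynomial.pderiv i F) ≠ 0)
    (x : Fin 4 → k) (hx : x ≠ 0) (hFx : MvPolynomial.eval x F = 0) :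
    ∃ (n : ℕ) (p : Fin 4 → MvPolynomial (Fin 2) k), 0 < n ∧ (∀ i, (p i).IsHomogeneous n) ∧
      (∀ t : Fin 2 → AlgebraicClosure k, t ≠ 0 → ∃ i, MvPolynomial.aeval t (p i) ≠ 0) ∧
      MvPolynomial.aeval p F = 0 ∧
      ∃ (t : Fin 2 → AlgebraicClosure k) (c : AlgebraicClosure k), t ≠ 0 ∧ c ≠ 0 ∧
        ∀ i, MvPolynomial.aeval t (p i) = c * algebraMap k (AlgebraicClosure k) (x i) := by
  obtain ⟨P, hP, ⟨t, c, hc, ht⟩, hne⟩ := Q53.CubicCurve.exists_curve F hF hsmooth x hx hFx
  exact Q53.CubicCurve.exists_morphism F hF x hx P hP t c hc ht hne

end Pool.Agent.Results.MP_4f7796_ag.RationalCurve
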